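import Mathlib

open Filter Topology
open scoped ENNReal NNReal

/-!
Problem MP_714461_an, Q1 and Q2, negative answer: every nonseparable real Hilbert space `H`
admits, for every `ε > 0`, a bijection `φ` of `H` onto itself such that `φ` and its inverse are
`(1+ε)`-Lipschitz and `φ` is Gateaux differentiable at no point of `H`.
-/

namespace Pool.Agent.Results.MP_714461_an.NowhereGateaux

universe u

/-- `φ` is Gateaux differentiable at `x`. -/
def GateauxDifferentiableAt {X Y : Type*} [NormedAddCommGroup X] [NormedSpace ℝ X]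
    [NormedAddCommGroup Y] [NormedSpace ℝ Y] (φ : X → Y) (x : X) : Prop :=
  ∃ D : X →L[ℝ] Y, ∀ h : X,
    Tendsto (fun t : ℝ => t⁻¹ • (φ (x + t • h) - φ x)) (𝓝[≠] 0) (𝓝 (D h))

/-- `X` is reflexive: the canonical map into the bidual is onto. -/
def Reflexive (X : Type*) [NormedAddCommGroup X] [NormedSpace ℝ X] : Prop :=
  Function.Surjective (NormedSpace.inclusionInDoubleDual ℝ X)

/-- `X` admits an equivalent uniformly convex norm (superreflexivity, in Enflo's form). -/
def Superreflexive (X : Type u) [NormedAddCommGroup X] [NormedSpace ℝ X] : Prop :=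
  ∃ (Z : Type u) (_ : NormedAddCommGroup Z) (_ : NormedSpace ℝ Z),
    UniformConvexSpace Z ∧ Nonempty (X ≃L[ℝ] Z)

theorem hilbert_reflexive (H : Type*) [NormedAddCommGroup H] [InnerProductSpace ℝ H]
    [CompleteSpace H] : Reflexive H := by
  intro Φ
  -- the functional `y ↦ Φ (⟨y, ·⟩)`
  let L : H →L[ℝ] StrongDual ℝ H := innerSL ℝ
  let ψ : StrongDual ℝ H := Φ.comp L
  obtain ⟨x, hx⟩ := (InnerProductSpace.toDual ℝ H).surjective ψ
  refine ⟨x, ?_⟩
  ext f
  obtain ⟨y, rfl⟩ := (InnerProductSpace.toDual ℝ H).surjective f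
  have h1 : ψ y = inner ℝ x y := by
    rw [← hx]
    exact InnerProductSpace.toDual_apply_apply
  have h2 : ψ y = Φ (InnerProductSpace.toDual ℝ H y) := rfl
  rw [← h2, h1, NormedSpace.dual_def, real_inner_comm]
  exact InnerProductSpace.toDual_apply_apply

/-- the one dimensional homeomorphism -/
noncomputable def s (c t : ℝ) : ℝ := t + c * |t|

/-- its inverse -/
noncomputable def r (c u : ℝ) : ℝ := if 0 ≤ u then u / (1 + c) else u / (1 - c)

theorem r_s {c : ℝ} (h0 : 0 < c) (h1 : c < 1) (t : ℝ) : r c (s c t) = t := by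
  unfold r s
  rcases le_or_gt 0 t with ht | ht
  · rw [abs_of_nonneg ht, if_pos (by positivity)]
    field_simp
  · have h2 : t + c * |t| < 0 := by
      rw [abs_of_neg ht]; nlinarith
    rw [if_neg (not_le.2 h2), abs_of_neg ht]
    have : (1 - c) ≠ 0 := by linarith
    field_simp
    ring

theorem s_r {c : ℝ} (h0 : 0 < c) (h1 : c < 1) (u : ℝ) : s c (r c u) = u := by
  unfold r s
  have hc1 : 0 < 1 - c := by linarith
  split_ifs with hu
  · rw [abs_of_nonneg (by positivity)]
    field_simp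
  · have : u / (1 - c) < 0 := div_neg_of_neg_of_pos (not_le.1 hu) hc1
    rw [abs_of_neg this]
    field_simp
    ring

theorem s_lip {c : ℝ} (h0 : 0 < c) (x y : ℝ) : |s c x - s c y| ≤ (1 + c) * |x - y| := by
  unfold s
  have h1 : |(|x| - |y|)| ≤ |x - y| := abs_abs_sub_abs_le_abs_sub x y
  have h2 : x + c * |x| - (y + c * |y|) = (x - y) + c * (|x| - |y|) := by ring
  rw [h2]
  calc |(x - y) + c * (|x| - |y|)| ≤ |x - y| + |c * (|x| - |y|)| := abs_add_le _ _
    _ = |x - y| + c * |(|x| - |y|)| := by rw [abs_mul, abs_of_pos h0]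
    _ ≤ |x - y| + c * |x - y| := by gcongr
    _ = _ := by ring

theorem s_expand {c : ℝ} (h0 : 0 < c) (x y : ℝ) : (1 - c) * |x - y| ≤ |s c x - s c y| := by
  unfold s
  have h1 : |(|x| - |y|)| ≤ |x - y| := abs_abs_sub_abs_le_abs_sub x y
  have h2 : x + c * |x| - (y + c * |y|) = (x - y) - (-(c * (|x| - |y|))) := by ring
  rw [h2]
  have h3 := abs_sub_abs_le_abs_sub (x - y) (-(c * (|x| - |y|)))
  rw [abs_neg, abs_mul, abs_of_pos h0] at h3
  have h4 : c * |(|x| - |y|)| ≤ c * |x - y| := by gcongr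
  linarith

theorem r_lip {c : ℝ} (h0 : 0 < c) (h1 : c < 1) (x y : ℝ) :
    |r c x - r c y| ≤ (1 - c)⁻¹ * |x - y| := by
  have h := s_expand h0 (r c x) (r c y)
  rw [s_r h0 h1, s_r h0 h1] at h
  have hc1 : 0 < 1 - c := by linarith
  rw [inv_mul_eq_div, le_div_iff₀ hc1]
  linarith

/-- coordinatewise application of a Lipschitz function vanishing at `0` -/
noncomputable def app {ι : Type*} (f : ℝ → ℝ) (K : ℝ) (hf : ∀ x y, |f x - f y| ≤ K * |x - y|)
    (hf0 : f 0 = 0) (x : lp (fun _ : ι => ℝ) 2) : lp (fun _ : ι => ℝ) 2 :=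
  ⟨fun i => f (x i), by
    have hb : ∀ i, ‖f (x i)‖ ≤ ‖(K • x : lp (fun _ : ι => ℝ) 2) i‖ := by
      intro i
      have h := hf (x i) 0
      rw [hf0, sub_zero, sub_zero] at h
      rw [lp.coeFn_smul, Pi.smul_apply, norm_smul, Real.norm_eq_abs, Real.norm_eq_abs,
        Real.norm_eq_abs]
      exact h.trans (by gcongr; exact le_abs_self K)
    have h1 : Summable fun i => ‖(K • x : lp (fun _ : ι => ℝ) 2) i‖ ^ (2 : ℝ≥0∞).toReal :=
      (lp.memℓp (K • x)).summable (by norm_num)
    refine memℓp_gen (h1.of_nonneg_of_le (fun i => by positivity) fun i => ?_)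
    exact Real.rpow_le_rpow (norm_nonneg _) (hb i) (by norm_num)⟩

theorem app_apply {ι : Type*} (f : ℝ → ℝ) (K : ℝ) (hf : ∀ x y, |f x - f y| ≤ K * |x - y|)
    (hf0 : f 0 = 0) (x : lp (fun _ : ι => ℝ) 2) (i : ι) : app f K hf hf0 x i = f (x i) := rfl

theorem app_lip {ι : Type*} (f : ℝ → ℝ) (K : ℝ) (hK : 0 ≤ K)
    (hf : ∀ x y, |f x - f y| ≤ K * |x - y|)
    (hf0 : f 0 = 0) (x y : lp (fun _ : ι => ℝ) 2) :
    ‖app f K hf hf0 x - app f K hf hf0 y‖ ≤ K * ‖x - y‖ := by
  have : ‖app f K hf hf0 x - app f K hf hf0 y‖ ≤ ‖K • (x - y)‖ := by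
    refine lp.norm_mono (by norm_num) fun i => ?_
    rw [lp.coeFn_sub, Pi.sub_apply, app_apply, app_apply, lp.coeFn_smul, Pi.smul_apply, norm_smul,
      lp.coeFn_sub, Pi.sub_apply, Real.norm_eq_abs, Real.norm_eq_abs, Real.norm_eq_abs,
      abs_of_nonneg hK]
    exact hf _ _
  rwa [norm_smul, Real.norm_eq_abs, abs_of_nonneg hK] at this

theorem hilbert {H : Type u} [NormedAddCommGroup H] [InnerProductSpace ℝ H] [CompleteSpace H]
    (hH : ¬ TopologicalSpace.SeparableSpace H) (ε : ℝ) (hε : 0 < ε) :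
    ∃ φ : H ≃ H, (∀ x y, ‖φ x - φ y‖ ≤ (1 + ε) * ‖x - y‖) ∧
      (∀ x y, ‖φ.symm x - φ.symm y‖ ≤ (1 + ε) * ‖x - y‖) ∧
      ∀ x, ¬ GateauxDifferentiableAt φ x := by
  classical
  obtain ⟨w, b, -⟩ := exists_hilbertBasis ℝ H
  -- the index set is uncountable
  have hunc : ¬ Countable w := by
    intro hw
    apply hH
    have hd : (Submodule.span ℝ (Set.range b)).topologicalClosure = ⊤ := b.dense_span
    have h1 : TopologicalSpace.IsSeparable (Set.range b) := (Set.countable_range b).isSeparable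
    have h2 := h1.span (R := ℝ)
    have h3 := h2.closure
    rw [← Submodule.topologicalClosure_coe, hd] at h3
    exact TopologicalSpace.isSeparable_univ_iff.1 h3
  -- the parameter
  obtain ⟨c, hc0, hc1, hc2, hc3⟩ : ∃ c : ℝ, 0 < c ∧ c < 1 ∧ 1 + c ≤ 1 + ε ∧
      (1 - c)⁻¹ ≤ 1 + ε := by
    refine ⟨ε / (1 + ε), by positivity, ?_, ?_, ?_⟩
    · rw [div_lt_one (by linarith)]; linarith
    · have : ε / (1 + ε) ≤ ε := div_le_self hε.le (by linarith)
      linarith
    · have : 1 - ε / (1 + ε) = (1 + ε)⁻¹ := by field_simp; ring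
      rw [this, inv_inv]
  have hs0 : s c 0 = 0 := by simp [s]
  have hr0 : r c 0 = 0 := by simp [r]
  have hsl : ∀ x y, |s c x - s c y| ≤ (1 + ε) * |x - y| := fun x y =>
    (s_lip hc0 x y).trans (by gcongr)
  have hrl : ∀ x y, |r c x - r c y| ≤ (1 + ε) * |x - y| := fun x y =>
    (r_lip hc0 hc1 x y).trans (by gcongr)
  let σ : lp (fun _ : w => ℝ) 2 ≃ lp (fun _ : w => ℝ) 2 :=
    { toFun := app (s c) (1 + ε) hsl hs0
      invFun := app (r c) (1 + ε) hrl hr0
      left_inv := fun x => by ext i; simp only [app_apply]; exact r_s hc0 hc1 _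
      right_inv := fun x => by ext i; simp only [app_apply]; exact s_r hc0 hc1 _ }
  let φ : H ≃ H := (b.repr.toEquiv.trans σ).trans b.repr.symm.toEquiv
  have hφ : ∀ x, φ x = b.repr.symm (app (s c) (1 + ε) hsl hs0 (b.repr x)) := fun x => rfl
  have hφs : ∀ x, φ.symm x = b.repr.symm (app (r c) (1 + ε) hrl hr0 (b.repr x)) := fun x => rfl
  refine ⟨φ, ?_, ?_, ?_⟩
  · intro x y
    rw [hφ, hφ, ← map_sub, LinearIsometryEquiv.norm_map]
    refine (app_lip _ _ (by linarith) hsl hs0 _ _).trans_eq ?_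
    rw [← map_sub, LinearIsometryEquiv.norm_map]
  · intro x y
    rw [hφs, hφs, ← map_sub, LinearIsometryEquiv.norm_map]
    refine (app_lip _ _ (by linarith) hrl hr0 _ _).trans_eq ?_
    rw [← map_sub, LinearIsometryEquiv.norm_map]
  · rintro x ⟨D, hD⟩
    -- a coordinate at which `x` vanishes
    obtain ⟨i, hi⟩ : ∃ i : w, b.repr x i = 0 := by
      by_contra hcon
      push Not at hcon
      apply hunc
      have h1 : Summable fun i => ‖b.repr x i‖ ^ (2 : ℝ≥0∞).toReal :=
        (lp.memℓp (b.repr x)).summable (by norm_num)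
      have h2 := h1.countable_support
      have h3 : (Function.support fun i => ‖b.repr x i‖ ^ (2 : ℝ≥0∞).toReal) = Set.univ := by
        ext j
        simp only [Function.mem_support, Set.mem_univ, iff_true]
        have : 0 < ‖b.repr x j‖ := norm_pos_iff.2 (hcon j)
        positivity
      rw [h3] at h2
      exact Set.countable_univ_iff.1 h2
    have h1 := hD (b i)
    -- the coordinate functional
    have hcont : Continuous fun y : H => b.repr y i := by
      have : (fun y : H => b.repr y i) = fun y => inner ℝ (b i) y := by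
        funext y; exact b.repr_apply_apply y i
      rw [this]
      exact continuous_const.inner continuous_id
    have h2 := (hcont.tendsto (D (b i))).comp h1
    have h3 : ∀ t : ℝ, b.repr (t⁻¹ • (φ (x + t • b i) - φ x)) i = t⁻¹ * s c t := by
      intro t
      rw [map_smul, map_sub, hφ, hφ, LinearIsometryEquiv.apply_symm_apply,
        LinearIsometryEquiv.apply_symm_apply, lp.coeFn_smul, Pi.smul_apply, lp.coeFn_sub,
        Pi.sub_apply, app_apply, app_apply, hi, hs0, sub_zero, map_add, map_smul, b.repr_self,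
        lp.coeFn_add, Pi.add_apply, hi, zero_add, lp.coeFn_smul, Pi.smul_apply, lp.single_apply_self]
      simp
    have h4 : Tendsto (fun t : ℝ => t⁻¹ * s c t) (𝓝[≠] 0) (𝓝 (b.repr (D (b i)) i)) := by
      refine h2.congr fun t => ?_
      exact h3 t
    have hpos : Tendsto (fun t : ℝ => t⁻¹ * s c t) (𝓝[>] 0) (𝓝 (1 + c)) := by
      refine tendsto_const_nhds.congr' ?_
      filter_upwards [self_mem_nhdsWithin] with t ht
      have ht' : (0 : ℝ) < t := ht
      rw [s, abs_of_pos ht']
      field_simp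
    have hneg : Tendsto (fun t : ℝ => t⁻¹ * s c t) (𝓝[<] 0) (𝓝 (1 - c)) := by
      refine tendsto_const_nhds.congr' ?_
      filter_upwards [self_mem_nhdsWithin] with t ht
      have ht' : t < (0 : ℝ) := ht
      rw [s, abs_of_neg ht']
      have : t ≠ 0 := ht'.ne
      field_simp
      ring
    have e1 := tendsto_nhds_unique hpos
      (h4.mono_left (nhdsWithin_mono _ fun t (ht : (0 : ℝ) < t) => ht.ne'))
    have e2 := tendsto_nhds_unique hneg
      (h4.mono_left (nhdsWithin_mono _ fun t (ht : t < (0 : ℝ)) => ht.ne))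
    linarith

theorem exists_nonseparable :
    ¬ TopologicalSpace.SeparableSpace (lp (fun _ : ℝ => ℝ) 2) := by
  classical
  intro h
  obtain ⟨d, hdc, hdd⟩ := TopologicalSpace.exists_countable_dense (lp (fun _ : ℝ => ℝ) 2)
  have h1 : ∀ i : ℝ, ∃ y ∈ d, dist (lp.single 2 i (1 : ℝ) : lp (fun _ : ℝ => ℝ) 2) y < 1 / 2 := by
    intro i
    exact hdd.exists_dist_lt _ (by norm_num)
  choose y hy hyd using h1
  have hinj : Function.Injective y := by
    intro i j hij
    by_contra hne
    have h2 := hyd i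
    have h3 := hyd j
    rw [hij] at h2
    have h4 : dist (lp.single 2 i (1 : ℝ) : lp (fun _ : ℝ => ℝ) 2) (lp.single 2 j (1 : ℝ)) < 1 := by
      calc _ ≤ dist (lp.single 2 i (1 : ℝ) : lp (fun _ : ℝ => ℝ) 2) (y j) +
            dist (y j) (lp.single 2 j (1 : ℝ)) := dist_triangle _ _ _
        _ < 1 := by rw [dist_comm (y j)]; linarith
    rw [dist_eq_norm] at h4
    have h5 := lp.norm_apply_le_norm (p := 2) (by norm_num)
      (lp.single 2 i (1 : ℝ) - lp.single 2 j (1 : ℝ) : lp (fun _ : ℝ => ℝ) 2) i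
    rw [lp.coeFn_sub, Pi.sub_apply, lp.single_apply_self, lp.single_apply_ne _ _ _ hne] at h5
    simp at h5
    linarith
  have hc : Set.Countable (Set.univ : Set ℝ) := by
    have : Set.MapsTo y Set.univ d := fun i _ => hy i
    exact this.countable_of_injOn hinj.injOn hdc
  exact Cardinal.not_countable_real hc

/-- **Negative answers to Q1 and Q2.**  Every nonseparable real Hilbert space (hence a nonseparable
reflexive, uniformly convex and so superreflexive space) admits for every `ε > 0` a bijection onto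
itself which is `(1+ε)`-Lipschitz together with its inverse and is Gateaux differentiable at no
point.  Nonseparable real Hilbert spaces exist. -/
theorem result :
    (∀ (H : Type u) [NormedAddCommGroup H] [InnerProductSpace ℝ H] [CompleteSpace H],
      ¬ TopologicalSpace.SeparableSpace H →
        Reflexive H ∧ Superreflexive H ∧ ∀ ε : ℝ, 0 < ε →
          ∃ φ : H ≃ H, (∀ x y, ‖φ x - φ y‖ ≤ (1 + ε) * ‖x - y‖) ∧
            (∀ x y, ‖φ.symm x - φ.symm y‖ ≤ (1 + ε) * ‖x - y‖) ∧
            ∀ x, ¬ GateauxDifferentiableAt φ x) ∧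
    ∃ (X : Type) (_ : NormedAddCommGroup X) (_ : NormedSpace ℝ X), CompleteSpace X ∧
      ¬ TopologicalSpace.SeparableSpace X ∧ Reflexive X ∧ Superreflexive X ∧
      ∃ (φ : X ≃ X) (K : ℝ≥0), LipschitzWith K φ ∧ LipschitzWith K φ.symm ∧
        ∀ x, ¬ GateauxDifferentiableAt φ x := by
  refine ⟨?_, ?_⟩
  · intro H _ _ _ hH
    exact ⟨hilbert_reflexive H, ⟨H, inferInstance, inferInstance, inferInstance,
      ⟨ContinuousLinearEquiv.refl ℝ H⟩⟩, fun ε hε => hilbert hH ε hε⟩
  · refine ⟨lp (fun _ : ℝ => ℝ) 2, inferInstance, inferInstance, inferInstance,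
      exists_nonseparable, hilbert_reflexive _, ⟨lp (fun _ : ℝ => ℝ) 2, inferInstance,
      inferInstance, inferInstance, ⟨ContinuousLinearEquiv.refl ℝ _⟩⟩, ?_⟩
    obtain ⟨φ, h1, h2, h3⟩ := hilbert exists_nonseparable 1 one_pos
    refine ⟨φ, 2, ?_, ?_, h3⟩
    · refine LipschitzWith.of_dist_le_mul fun x y => ?_
      rw [dist_eq_norm, dist_eq_norm]
      refine (h1 x y).trans_eq ?_
      norm_num
    · refine LipschitzWith.of_dist_le_mul fun x y => ?_
      rw [dist_eq_norm, dist_eq_norm]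
      refine (h2 x y).trans_eq ?_
      norm_num

end Pool.Agent.Results.MP_714461_an.NowhereGateaux
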